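import Pool.Agent.H.MP_8a688e_nt.C

set_option autoImplicit false

namespace Pool.Agent.Results.MP_8a688e_nt.Conn

theorem result : ∃ c : ℂ, c.im ≠ 0 ∧ c.re < -1 ∧
    IsConnected (closure {z : ℂ | ∃ n : ℕ, 1 ≤ n ∧ z = ∑ d ∈ n.divisors, (d : ℂ) ^ c}) :=
  Pool.Agent.H.MP_8a688e_nt.main

end Pool.Agent.Results.MP_8a688e_nt.Conn
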